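import Pool.Agent.helper99.WN.SpecB

set_option autoImplicit false

open Classical

namespace Pool.Agent.WN

/-- The edge of a step. -/
def LA_eo {V : Type} {k : ℕ} (v : V) (a : Lt k) (v' : V) : V × Fin k × V :=
  if a.2 = true then (v, a.1, v') else (v', a.1, v)

theorem LA_ed {V : Type} {k : ℕ} (W : ℤ → Lt k) (z : ℤ → V) (t : ℤ) :
    ed W z t = LA_eo (z t) (W t) (z (t + 1)) := rfl

theorem LA_eo_iv {V : Type} {k : ℕ} (v : V) (a : Lt k) (v' : V) :
    LA_eo v' (iv a) v = LA_eo v a v' := by
  obtain ⟨x, b⟩ := a
  cases b <;> simp [LA_eo, iv]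

theorem LA_eo_inj {V : Type} {k : ℕ} (v : V) (a : Lt k) (v' : V) (u : V) (b : Lt k) (u' : V)
    (h : LA_eo v a v' = LA_eo u b u') :
    (v = u ∧ a = b ∧ v' = u') ∨ (v = u' ∧ a = iv b ∧ v' = u) := by
  obtain ⟨x, p⟩ := a
  obtain ⟨y, q⟩ := b
  cases p <;> cases q <;> simp [LA_eo, iv] at h ⊢ <;> tauto

theorem LA_rl {V : Type} {k : ℕ} (E : Gr V k) (v : V) (a : Lt k) (v' : V) :
    Rl E v a v' ↔ LA_eo v a v' ∈ E := by
  unfold Rl LA_eo
  split <;> rfl

theorem LA_inc {V : Type} {k : ℕ} (v : V) (a : Lt k) (v' : V) :
    ((LA_eo v a v').1 = v ∨ (LA_eo v a v').2.2 = v) ∧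
    ((LA_eo v a v').1 = v' ∨ (LA_eo v a v').2.2 = v') := by
  unfold LA_eo
  split <;> simp

/-- The edge end. -/
def LA_end {V : Type} {k : ℕ} (v : V) (a : Lt k) (v' : V) :
    (V × Fin k × V) ⊕ (V × Fin k × V) :=
  if a.2 = true then Sum.inl (v, a.1, v') else Sum.inr (v', a.1, v)

theorem LA_end_mem {V : Type} {k : ℕ} (E : Gr V k) (v : V) (a : Lt k) (v' : V)
    (h : Rl E v a v') :
    LA_end v a v' ∈ (E.filter fun e => e.1 = v).disjSum (E.filter fun e => e.2.2 = v) := by
  unfold Rl at h
  unfold LA_end
  split at h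
  · rename_i h1
    rw [if_pos h1, Finset.inl_mem_disjSum, Finset.mem_filter]
    exact ⟨h, rfl⟩
  · rename_i h1
    rw [if_neg h1, Finset.inr_mem_disjSum, Finset.mem_filter]
    exact ⟨h, rfl⟩

theorem LA_end_inj {V : Type} {k : ℕ} (v : V) (a : Lt k) (v' : V) (b : Lt k) (u' : V)
    (h : LA_end v a v' = LA_end v b u') : a = b := by
  obtain ⟨x, p⟩ := a
  obtain ⟨y, q⟩ := b
  cases p <;> cases q <;> simp [LA_end] at h ⊢ <;> tauto

theorem LA_two {V : Type} {k : ℕ} (E : Gr V k) (v : V) (hd : deg E v = 2) (a b c : Lt k)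
    (va vb vc : V) (ha : Rl E v a va) (hb : Rl E v b vb) (hc : Rl E v c vc) (hab : a ≠ b) :
    c = a ∨ c = b := by
  by_contra hcon
  rw [not_or] at hcon
  obtain ⟨hca, hcb⟩ := hcon
  have hcard : ((E.filter fun e => e.1 = v).disjSum (E.filter fun e => e.2.2 = v)).card = 2 := by
    rw [Finset.card_disjSum]
    exact hd
  have hsub : ({LA_end v a va, LA_end v b vb, LA_end v c vc} : Finset _) ⊆
      (E.filter fun e => e.1 = v).disjSum (E.filter fun e => e.2.2 = v) := by
    intro p hp
    rw [Finset.mem_insert, Finset.mem_insert, Finset.mem_singleton] at hp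
    rcases hp with rfl | rfl | rfl
    · exact LA_end_mem E v a va ha
    · exact LA_end_mem E v b vb hb
    · exact LA_end_mem E v c vc hc
  have h3 : ({LA_end v a va, LA_end v b vb, LA_end v c vc} : Finset _).card = 3 := by
    rw [Finset.card_eq_three]
    exact ⟨_, _, _, fun h => hab (LA_end_inj v a va b vb h),
      fun h => hca (LA_end_inj v a va c vc h).symm,
      fun h => hcb (LA_end_inj v b vb c vc h).symm, rfl⟩
  have h4 := Finset.card_le_card hsub
  rw [h3, hcard] at h4
  omega

theorem LA : LA_stmt := by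
  intro V k E C W s e z hred himm hrun hCE hprot t hSg
  obtain ⟨hst, hte, huniq, hC⟩ := hSg
  have hsym : Sym (Rl E) := rl_sym
  have hRt : Rl E (z t) (W t) (z (t + 1)) := hrun t hst hte
  have hEt : ed W z t ∈ E := by rw [LA_ed, ← LA_rl]; exact hRt
  constructor
  · intro hdeg hzs hze
    have hts : s < t := by
      rcases hst.lt_or_eq with h | h
      · exact h
      · exact absurd (by rw [h]) hzs
    have hR1 : Rl E (z (t - 1)) (W (t - 1)) (z t) := by
      have h := hrun (t - 1) (by omega) (by omega)
      rwa [sub_add_cancel] at h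
    have hR1' := hsym _ _ _ hR1
    have hE1 : ed W z (t - 1) ∈ E := by
      rw [LA_ed, ← LA_rl, sub_add_cancel]; exact hR1
    have hne : W t ≠ iv (W (t - 1)) := by
      have h := hred (t - 1)
      rwa [sub_add_cancel] at h
    refine ⟨by omega, by omega, ?_, ?_⟩
    · intro t' hs' he' hed
      rw [LA_ed, LA_ed, sub_add_cancel] at hed
      have hR' : Rl E (z t') (W t') (z (t' + 1)) := hrun t' hs' he'
      rcases LA_eo_inj _ _ _ _ _ _ hed with ⟨e1, e2, e3⟩ | ⟨e1, e2, e3⟩
      · have hlt : t' + 1 < e := by
          rcases (show t' + 1 ≤ e by omega).lt_or_eq with h | h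
          · exact h
          · exact absurd (by rw [← e3, h]) hze
        have hR2 := hrun (t' + 1) (by omega) hlt
        rw [e3] at hR2
        rcases LA_two E (z t) hdeg _ _ _ _ _ _ hRt hR1' hR2 hne with h | h
        · rw [h] at hR2
          have h5 := himm _ _ _ _ hR2 hRt
          have h6 : ed W z (t' + 1) = ed W z t := by
            rw [LA_ed, LA_ed, e3, h, h5]
          have := huniq (t' + 1) (by omega) hlt h6
          omega
        · exfalso
          rw [← e2] at h
          exact hred t' h
      · have hgt : s < t' := by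
          rcases hs'.lt_or_eq with h | h
          · exact h
          · exact absurd (by rw [← e1, h]) hzs
        have hR2 : Rl E (z (t' - 1)) (W (t' - 1)) (z t') := by
          have h := hrun (t' - 1) (by omega) (by omega)
          rwa [sub_add_cancel] at h
        have hR2' := hsym _ _ _ hR2
        rw [e1] at hR2'
        have hred' : W t' ≠ iv (W (t' - 1)) := by
          have h := hred (t' - 1)
          rwa [sub_add_cancel] at h
        rcases LA_two E (z t) hdeg _ _ _ _ _ _ hRt hR1' hR2' hne with h | h
        · rw [h] at hR2'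
          have h5 := himm _ _ _ _ hR2' hRt
          have h6 : ed W z (t' - 1) = ed W z t := by
            rw [LA_ed, LA_ed, sub_add_cancel, ← LA_eo_iv, h, h5, e1]
          have h7 := huniq (t' - 1) (by omega) (by omega) h6
          exfalso
          rw [h7] at h
          exact iv_ne _ h
        · exfalso
          rw [← e2] at h
          exact hred' h.symm
    · intro hCm
      apply hC
      refine hprot (z t) hdeg _ hCm ?_ _ hEt ?_
      · rw [LA_ed, sub_add_cancel]
        exact (LA_inc _ _ _).2
      · rw [LA_ed]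
        exact (LA_inc _ _ _).1
  · intro hdeg hzs hze
    have hlt : t + 1 < e := by
      rcases (show t + 1 ≤ e by omega).lt_or_eq with h | h
      · exact h
      · exact absurd (by rw [h]) hze
    have hRt' := hsym _ _ _ hRt
    have hR1 : Rl E (z (t + 1)) (W (t + 1)) (z (t + 1 + 1)) := hrun (t + 1) (by omega) hlt
    have hE1 : ed W z (t + 1) ∈ E := by
      rw [LA_ed, ← LA_rl]; exact hR1
    have hne : W (t + 1) ≠ iv (W t) := hred t
    refine ⟨by omega, hlt, ?_, ?_⟩
    · intro t' hs' he' hed
      rw [LA_ed, LA_ed] at hed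
      have hR' : Rl E (z t') (W t') (z (t' + 1)) := hrun t' hs' he'
      rcases LA_eo_inj _ _ _ _ _ _ hed with ⟨e1, e2, e3⟩ | ⟨e1, e2, e3⟩
      · have hgt : s < t' := by
          rcases hs'.lt_or_eq with h | h
          · exact h
          · exact absurd (by rw [← e1, h]) hzs
        have hR2 : Rl E (z (t' - 1)) (W (t' - 1)) (z t') := by
          have h := hrun (t' - 1) (by omega) (by omega)
          rwa [sub_add_cancel] at h
        have hR2' := hsym _ _ _ hR2
        rw [e1] at hR2'
        have hred' : W t' ≠ iv (W (t' - 1)) := by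
          have h := hred (t' - 1)
          rwa [sub_add_cancel] at h
        rcases LA_two E (z (t + 1)) hdeg _ _ _ _ _ _ hR1 hRt' hR2' hne with h | h
        · exfalso
          rw [← e2] at h
          exact hred' h.symm
        · rw [h] at hR2'
          have h5 := himm _ _ _ _ hR2' hRt'
          have h6 : ed W z (t' - 1) = ed W z t := by
            rw [LA_ed, LA_ed, sub_add_cancel, iv_inj h, h5, e1]
          have := huniq (t' - 1) (by omega) (by omega) h6
          omega
      · have hlt' : t' + 1 < e := by
          rcases (show t' + 1 ≤ e by omega).lt_or_eq with h | h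
          · exact h
          · exact absurd (by rw [← e3, h]) hze
        have hR2 := hrun (t' + 1) (by omega) hlt'
        rw [e3] at hR2
        rcases LA_two E (z (t + 1)) hdeg _ _ _ _ _ _ hR1 hRt' hR2 hne with h | h
        · exfalso
          have h8 : W (t + 1) = iv (W t') := by rw [e2, iv_iv]
          rw [h8] at h
          exact hred t' h
        · rw [h] at hR2
          have h5 := himm _ _ _ _ hR2 hRt'
          have h6 : ed W z (t' + 1) = ed W z t := by
            rw [LA_ed, LA_ed, e3, h, h5, LA_eo_iv]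
          have h7 := huniq (t' + 1) (by omega) hlt' h6
          exfalso
          rw [h7] at h
          exact iv_ne _ h.symm
    · intro hCm
      apply hC
      refine hprot (z (t + 1)) hdeg _ hCm ?_ _ hEt ?_
      · rw [LA_ed]
        exact (LA_inc _ _ _).1
      · rw [LA_ed]
        exact (LA_inc _ _ _).2

end Pool.Agent.WN
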